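import Pool.Agent.Results.MP_fa2474_nt.GenericPairs
import Pool.Agent.Q39.AE.Pert

/-!
# Moments of zeta with pairs of random shifts: the full asymptotics with square root remainder

The definitions of `Z`, of the shift vectors `shifts c = (0, c_1, …, c_n)` and of the full main term
`mainTerm c` of the recipe are those of the starting file `GenericPairs`, which bounds the volume of
the set of the exceptional `c` for one exponent `1/2 + ε` at one height. Here arbitrary shifts `h m`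
at the heights `T m` are perturbed: for almost every `x` the moment of order `2 (n + 1)` with the
pairs of shifts `h m + U m x` has the full asymptotics with the remainder `T m ^ (1/2 + ε)` for
every `ε > 0`.
-/

open MeasureTheory Filter Topology

namespace Pool.Agent.Results.MP_07318d_nt.PairsOfRandomShifts

open Pool.Agent.Results.MP_fa2474_nt.GenericPairs

theorem result (n : ℕ) (T U S : ℕ → ℝ) (h : ℕ → Fin n → ℝ) (hT : ∀ m, 1 ≤ T m)
    (hsum : ∀ δ : ℝ, 0 < δ → Summable fun m => T m ^ (-δ)) (hU : ∀ m, 0 < U m ∧ U m ≤ T m)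
    (hU' : ∀ η : ℝ, 0 < η → ∀ᶠ m in atTop, T m ^ (1 - η) ≤ U m)
    (hS : ∀ m, 0 ≤ S m ∧ S m ≤ T m) (hh : ∀ m i, 0 ≤ h m i ∧ h m i ≤ T m) :
    ∀ᵐ x : Fin n → ℝ, (∀ i, 0 ≤ x i) → ∀ ε : ℝ, 0 < ε → ∀ᶠ m in atTop,
      ‖(∫ t in (0:ℝ)..S m, Z (shifts fun i => h m i + U m * x i)
          (shifts fun i => h m i + U m * x i) t) -
        ∫ t in (0:ℝ)..S m, mainTerm (fun i => h m i + U m * x i) t‖ ≤ T m ^ (1 / 2 + ε) := by
  have hT0 : ∀ m, 0 < T m := fun m => lt_of_lt_of_le one_pos (hT m)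
  have hTlim : Tendsto T atTop atTop :=
    Pool.Agent.Q39.AE.tendsto_of_summable hT one_pos (hsum 1 one_pos)
  -- one cube and one exponent
  have key : ∀ R : ℕ, ∀ N : ℕ, ∀ᵐ x : Fin n → ℝ, (∀ i, 0 ≤ x i ∧ x i ≤ R) →
      ∀ᶠ m in atTop, ‖(∫ t in (0:ℝ)..S m, Z (shifts fun i => h m i + U m * x i)
          (shifts fun i => h m i + U m * x i) t) -
        ∫ t in (0:ℝ)..S m, mainTerm (fun i => h m i + U m * x i) t‖ ≤
          T m ^ (1 / 2 + 1 / ((N : ℝ) + 1)) := by
    intro R N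
    set ε : ℝ := 1 / (2 * ((N : ℝ) + 1)) with hε
    have hN0 : (0 : ℝ) < (N : ℝ) + 1 := by positivity
    have hε0 : 0 < ε := by positivity
    have hε2 : 1 / ((N : ℝ) + 1) = 2 * ε := by rw [hε]; field_simp
    obtain ⟨δ, T₀, hδ, hmain⟩ := Pool.Agent.Results.MP_fa2474_nt.GenericPairs.result n ε hε0
    set M : ℝ := (R : ℝ) + 1 with hM
    have hM1 : 1 ≤ M := by rw [hM]; have : (0 : ℝ) ≤ R := Nat.cast_nonneg R; linarith
    have hM0 : 0 < M := by linarith
    set η : ℝ := δ / ((n : ℝ) + 1) with hη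
    have hn0 : (0 : ℝ) < (n : ℝ) + 1 := by positivity
    have hη0 : 0 < η := by positivity
    have hη2 : η * (((Fintype.card (Fin n) : ℕ) : ℝ) + 1) ≤ δ := by
      rw [Fintype.card_fin, hη, div_mul_cancel₀ _ hn0.ne']
    set B : ℕ → ℝ → Set (Fin n → ℝ) := fun m X =>
      {c : Fin n → ℝ | S m ≤ X ∧ (∀ j, 0 ≤ c j ∧ c j ≤ X) ∧ X ^ (1 / 2 + ε) <
        ‖(∫ t in (0:ℝ)..S m, Z (shifts c) (shifts c) t) - ∫ t in (0:ℝ)..S m, mainTerm c t‖}
      with hBdef
    have hBv : ∀ X : ℝ, T₀ ≤ X → ∀ m : ℕ, volume (B m X) ≤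
        ENNReal.ofReal (X ^ (((Fintype.card (Fin n) : ℕ) : ℝ) - δ)) := by
      intro X hX m
      rw [Fintype.card_fin]
      by_cases hSX : S m ≤ X
      · refine le_trans (measure_mono ?_) (hmain X (S m) hX (hS m).1 hSX)
        intro c hc
        exact hc.2
      · have : B m X = ∅ := by
          ext c
          simp only [hBdef, Set.mem_setOf_eq, Set.mem_empty_iff_false, iff_false]
          exact fun hc => hSX hc.1
        rw [this, measure_empty]
        exact zero_le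
    set V : ℕ → ℝ := fun m => max (U m) (T m ^ (1 - η)) with hV
    have hBC := Pool.Agent.Q39.AE.pert B δ T₀ hBv η hη0 hη2 T V h hT (hsum η hη0)
      (fun m => le_max_right _ _) M hM1
    have hVU : ∀ᶠ m in atTop, V m = U m := by
      filter_upwards [hU' η hη0] with m hm
      exact max_eq_left hm
    -- the threshold
    have hthr : ∀ᶠ m in atTop, (M * T m) ^ (1 / 2 + ε) ≤ T m ^ (1 / 2 + 1 / ((N : ℝ) + 1)) := by
      have h1 : Tendsto (fun m => T m ^ ε) atTop atTop := (tendsto_rpow_atTop hε0).comp hTlim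
      filter_upwards [h1.eventually_ge_atTop (M ^ (1 / 2 + ε))] with m hm
      rw [Real.mul_rpow hM0.le (hT0 m).le]
      calc M ^ (1 / 2 + ε) * T m ^ (1 / 2 + ε) ≤ T m ^ ε * T m ^ (1 / 2 + ε) :=
            mul_le_mul_of_nonneg_right hm (Real.rpow_nonneg (hT0 m).le _)
        _ = T m ^ (1 / 2 + 1 / ((N : ℝ) + 1)) := by
            rw [← Real.rpow_add (hT0 m), hε2]
            congr 1
            ring
    filter_upwards [hBC] with x hx hx0
    filter_upwards [hx, hthr, hVU] with m hm hm2 hm3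
    rw [hm3] at hm
    by_contra hcon
    push Not at hcon
    apply hm
    refine ⟨(hS m).2.trans ?_, fun i => ⟨?_, ?_⟩, lt_of_le_of_lt hm2 hcon⟩
    · have h1 := hT0 m
      nlinarith
    · have h1 := (hh m i).1
      have h2 := (hx0 i).1
      have h3 := (hU m).1
      positivity
    · have h1 := (hh m i).2
      have h2 : U m * x i ≤ T m * R :=
        mul_le_mul (hU m).2 (hx0 i).2 (hx0 i).1 (hT0 m).le
      rw [hM]
      linarith
  have key2 : ∀ᵐ x : Fin n → ℝ, ∀ R N : ℕ, (∀ i, 0 ≤ x i ∧ x i ≤ R) →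
      ∀ᶠ m in atTop, ‖(∫ t in (0:ℝ)..S m, Z (shifts fun i => h m i + U m * x i)
          (shifts fun i => h m i + U m * x i) t) -
        ∫ t in (0:ℝ)..S m, mainTerm (fun i => h m i + U m * x i) t‖ ≤
          T m ^ (1 / 2 + 1 / ((N : ℝ) + 1)) :=
    ae_all_iff.2 fun R => ae_all_iff.2 fun N => key R N
  filter_upwards [key2] with x hx hx0 ε hε
  obtain ⟨R, hR⟩ := exists_nat_ge (∑ i, x i)
  obtain ⟨N, hN⟩ := exists_nat_one_div_lt hε
  have hb : ∀ i, 0 ≤ x i ∧ x i ≤ R := fun i => ⟨hx0 i, le_trans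
    (Finset.single_le_sum (f := x) (fun j _ => hx0 j) (Finset.mem_univ i)) hR⟩
  filter_upwards [hx R N hb] with m hm
  refine hm.trans (Real.rpow_le_rpow_of_exponent_le (hT m) ?_)
  linarith

end Pool.Agent.Results.MP_07318d_nt.PairsOfRandomShifts
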