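import Pool.Agent.Q231.RS.RMZ
import Mathlib.Probability.Independence.InfinitePi

/-!
# The moments of zeta at random points with square-root remainder

Let `γ > 0` and let `X_0, X_1, ...` be pairwise independent random points, `X_n` uniformly distributed on
`[n^γ, (n + 1)^γ]`. For a real polynomial `Q` consider the formula with square-root remainder
`∫_0^T |ζ(1/2 + it)|^(2k) dt = ∫_0^T Q(log(t/2π)) dt + O(T^(1/2+ε))` for all `ε > 0`, and the same formula for the sums
`∑_{n < N} ((n + 1)^γ - n^γ) |ζ(1/2 + iX_n)|^(2k)` at `T = N^γ`. We prove, without any hypothesis: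

* `γ = 1`, all orders: with probability one, for every infinite set `K` of positive integers and all real polynomials `Q_k`,
  the formulas for the integrals hold for all `k ∈ K` if and only if those for the sums hold for all `k ∈ K`. With
  `K = {1, 2, ...}` and the moment polynomials `Q_k = P_k` this is an equivalent form of Q1;
* each order `k ≥ 1`, `γ(2k + 1) ≤ 3`: almost surely the sums differ from the integrals by `O(T^(1/2+ε))`, and the formulas
  for the integral and for the sums are equivalent, for every polynomial `Q`. In particular the case `k = 2` of Q1 is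
  equivalent to a statement on about `T^(5/3)` random values.

Proof. Rademacher-Menshov inequality for the deviations of the sums. The variances are `O(T^(1+ε))`: for `γ = 1` under the
Lindelöf hypothesis, for `γ(2k + 1) ≤ 3` by Weyl's bound and the fourth moment (starting library). If the Lindelöf
hypothesis is false then both sides fail for infinite `K`, since large values persist and the random points
hit them infinitely often.
-/

set_option autoImplicit false

open MeasureTheory ProbabilityTheory Filter Topology Set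

namespace Pool.Agent.Results.MP_07318d_nt.RandomPointsSquareRoot

/-- `∫_0^T |ζ(1/2 + it)|^(2k) dt` -/
noncomputable def M (k : ℕ) (T : ℝ) : ℝ := ∫ t in (0 : ℝ)..T, ‖riemannZeta (1 / 2 + t * Complex.I)‖ ^ (2 * k)

/-- `∫_0^T Q(log(t/2π)) dt` -/
noncomputable def main (Q : Polynomial ℝ) (T : ℝ) : ℝ := ∫ t in (0 : ℝ)..T, Q.eval (Real.log (t / (2 * Real.pi)))

/-- the sum over the sample `x_n`, weighted by the lengths of the strata -/
noncomputable def S (γ : ℝ) (x : ℕ → ℝ) (k : ℕ) (N : ℕ) : ℝ :=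
  ∑ n ∈ Finset.range N, (((n : ℝ) + 1) ^ γ - (n : ℝ) ^ γ) * ‖riemannZeta (1 / 2 + x n * Complex.I)‖ ^ (2 * k)

/-- The formula with main term `∫_0^T Q(log(t/2π)) dt` and square-root remainder. -/
def Formula (k : ℕ) (Q : Polynomial ℝ) : Prop := ∀ ε : ℝ, 0 < ε → ∃ C : ℝ, ∀ T : ℝ, 1 ≤ T →
  |M k T - main Q T| ≤ C * T ^ (1 / 2 + ε)

/-- The same formula for the sums over the sample, at `T = N^γ`. -/
def FormulaAt (γ : ℝ) (x : ℕ → ℝ) (k : ℕ) (Q : Polynomial ℝ) : Prop := ∀ ε : ℝ, 0 < ε → ∃ C : ℝ, ∀ N : ℕ, 1 ≤ N →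
  |S γ x k N - main Q ((N : ℝ) ^ γ)| ≤ C * ((N : ℝ) ^ γ) ^ (1 / 2 + ε)

/-- `X_n` is uniformly distributed on `[n^γ, (n + 1)^γ]`, and the `X_n` are pairwise independent. -/
structure RandomPoints (γ : ℝ) {Ω : Type} [MeasurableSpace Ω] (P : Measure Ω) (X : ℕ → Ω → ℝ) : Prop where
  meas : ∀ n, Measurable (X n)
  law : ∀ n : ℕ, P.map (X n) =
    (ENNReal.ofReal (((n : ℝ) + 1) ^ γ - (n : ℝ) ^ γ))⁻¹ • volume.restrict (Icc ((n : ℝ) ^ γ) (((n : ℝ) + 1) ^ γ))
  ind : Pairwise fun i j => IndepFun (X i) (X j) P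

/-- the product measure on the sequences of points of `[0, 1]` -/
noncomputable def Cube : Measure (ℕ → ℝ) := Measure.infinitePi fun _ : ℕ => (volume.restrict (Icc (0 : ℝ) 1))

open Pool.Agent.Q231.RS

lemma spts {γ : ℝ} {Ω : Type} [MeasurableSpace Ω] {P : Measure Ω} {X : ℕ → Ω → ℝ} (h : RandomPoints γ P X) :
    SPts (pw γ) P X := by
  refine ⟨h.meas, fun n => ?_, h.ind⟩
  have := h.law n
  unfold pw
  push_cast
  exact this

lemma upts {Ω : Type} [MeasurableSpace Ω] {P : Measure Ω} {X : ℕ → Ω → ℝ} (h : RandomPoints 1 P X) : UPts P X := by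
  refine ⟨h.meas, fun n => ?_, h.ind⟩
  have := h.law n
  simp only [Real.rpow_one] at this
  rwa [add_sub_cancel_left, ENNReal.ofReal_one, inv_one, one_smul] at this

instance inst1 : IsProbabilityMeasure (volume.restrict (Icc (0 : ℝ) 1)) := ⟨by simp⟩

instance inst2 : IsProbabilityMeasure Cube := by
  unfold Cube
  infer_instance

/-- such points exist -/
lemma cube_points {γ : ℝ} (hγ : 0 < γ) : RandomPoints γ Cube
    fun (n : ℕ) (θ : ℕ → ℝ) => (n : ℝ) ^ γ + (((n : ℝ) + 1) ^ γ - (n : ℝ) ^ γ) * θ n where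
  meas := fun n => by fun_prop
  law := by
    intro n
    set a : ℝ := (n : ℝ) ^ γ with ha
    set b : ℝ := ((n : ℝ) + 1) ^ γ with hb
    have hab : a < b := Real.rpow_lt_rpow (Nat.cast_nonneg n) (by linarith) hγ
    have hl : 0 < b - a := by linarith
    have h1 : Cube.map (fun θ : ℕ → ℝ => θ n) = volume.restrict (Icc (0 : ℝ) 1) :=
      Measure.infinitePi_map_eval (fun _ : ℕ => (volume.restrict (Icc (0 : ℝ) 1))) n
    have h2 : Cube.map (fun θ : ℕ → ℝ => a + (b - a) * θ n) =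
        (Cube.map (fun θ : ℕ → ℝ => θ n)).map (fun x : ℝ => a + (b - a) * x) := by
      rw [Measure.map_map (by fun_prop) (by fun_prop)]
      rfl
    rw [h2, h1]
    ext E hE
    have hm : Measurable fun x : ℝ => a + (b - a) * x := by fun_prop
    rw [Measure.map_apply hm hE, Measure.restrict_apply (hm hE), Measure.smul_apply, Measure.restrict_apply hE]
    have h3 : (fun x : ℝ => a + (b - a) * x) ⁻¹' E ∩ Icc 0 1 =
        (fun x : ℝ => (b - a) * x) ⁻¹' ((fun y : ℝ => a + y) ⁻¹' (E ∩ Icc a b)) := by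
      ext x
      simp only [mem_inter_iff, mem_preimage, mem_Icc]
      constructor
      · rintro ⟨a1, a2, a3⟩
        exact ⟨a1, by nlinarith, by nlinarith⟩
      · rintro ⟨a1, a2, a3⟩
        refine ⟨a1, ?_, ?_⟩
        · by_contra hx
          push Not at hx
          nlinarith
        · by_contra hx
          push Not at hx
          nlinarith
    rw [h3, Real.volume_preimage_mul_left hl.ne', measure_preimage_add, abs_of_pos (inv_pos.2 hl),
      ENNReal.ofReal_inv_of_pos hl, smul_eq_mul]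
  ind := by
    intro i j hij
    have h1 : iIndepFun (fun (n : ℕ) (θ : ℕ → ℝ) => (n : ℝ) ^ γ + (((n : ℝ) + 1) ^ γ - (n : ℝ) ^ γ) * θ n) Cube := by
      unfold Cube
      exact iIndepFun_infinitePi (P := fun _ : ℕ => (volume.restrict (Icc (0 : ℝ) 1)))
        (X := fun (n : ℕ) (x : ℝ) => (n : ℝ) ^ γ + (((n : ℝ) + 1) ^ γ - (n : ℝ) ^ γ) * x) (fun n => by fun_prop)
    exact h1.indepFun hij

lemma f_eq (k : ℕ) (t : ℝ) : ‖riemannZeta (1 / 2 + t * Complex.I)‖ ^ (2 * k) =
    Pool.Agent.W188.Mom.Z t ^ (2 * (k : ℝ)) := by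
  unfold Pool.Agent.W188.Mom.Z
  rw [← Real.rpow_natCast]
  push_cast
  rfl

lemma M_eq (k : ℕ) (T : ℝ) : M k T = ∫ t in (0 : ℝ)..T, Pool.Agent.W188.Mom.Z t ^ (2 * (k : ℝ)) := by
  unfold M
  simp only [f_eq]

lemma S_eq (γ : ℝ) (x : ℕ → ℝ) (k N : ℕ) : S γ x k N =
    ∑ n ∈ Finset.range N, (pw γ (n + 1) - pw γ n) * Pool.Agent.W188.Mom.Z (x n) ^ (2 * (k : ℝ)) := by
  unfold S pw
  simp only [f_eq]
  push_cast
  rfl

lemma formula_iff (k : ℕ) (Q : Polynomial ℝ) : Formula k Q ↔ SqM (2 * (k : ℝ)) Q := by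
  unfold Formula SqM
  simp only [M_eq]
  rfl

lemma formulaAt_iff {Ω : Type} (γ : ℝ) (X : ℕ → Ω → ℝ) (ω : Ω) (k : ℕ) (Q : Polynomial ℝ) :
    FormulaAt γ (fun n => X n ω) k Q ↔ SqS γ (2 * (k : ℝ)) Q X ω := by
  unfold FormulaAt SqS
  simp only [S_eq]
  rfl

/-- **The moments of zeta at random points with square-root remainder.** -/
theorem result :
    -- all orders, one random point in every unit interval
    (∀ (Ω : Type) [MeasurableSpace Ω] (P : Measure Ω) [IsProbabilityMeasure P] (X : ℕ → Ω → ℝ), RandomPoints 1 P X →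
      (∀ᵐ ω ∂P, ∀ K : Set ℕ, K.Infinite → (∀ k ∈ K, 1 ≤ k) → ∀ Q : ℕ → Polynomial ℝ,
        (∀ k ∈ K, Formula k (Q k)) ↔ ∀ k ∈ K, FormulaAt 1 (fun n => X n ω) k (Q k)) ∧
      -- Q1, for the moment polynomials (and all other sequences of polynomials)
      ∀ Q : ℕ → Polynomial ℝ,
        ((∀ k : ℕ, 1 ≤ k → Formula k (Q k)) ↔ ∀ᵐ ω ∂P, ∀ k : ℕ, 1 ≤ k → FormulaAt 1 (fun n => X n ω) k (Q k)) ∧
        ((∀ k : ℕ, 1 ≤ k → Formula k (Q k)) ↔
          ¬ ∀ᵐ ω ∂P, ¬ ∀ k : ℕ, 1 ≤ k → FormulaAt 1 (fun n => X n ω) k (Q k))) ∧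
    -- each order
    (∀ (γ : ℝ) (k : ℕ), 0 < γ → 1 ≤ k → γ * (2 * k + 1) ≤ 3 →
      ∀ (Ω : Type) [MeasurableSpace Ω] (P : Measure Ω) [IsProbabilityMeasure P] (X : ℕ → Ω → ℝ), RandomPoints γ P X →
        ∀ᵐ ω ∂P, (∀ ε : ℝ, 0 < ε → ∃ C : ℝ, ∀ N : ℕ, 1 ≤ N →
            |S γ (fun n => X n ω) k N - M k ((N : ℝ) ^ γ)| ≤ C * ((N : ℝ) ^ γ) ^ (1 / 2 + ε)) ∧
          ∀ Q : Polynomial ℝ, Formula k Q ↔ FormulaAt γ (fun n => X n ω) k Q) ∧
    -- such points exist
    ∀ γ : ℝ, 0 < γ →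
      RandomPoints γ Cube (fun (n : ℕ) (θ : ℕ → ℝ) => (n : ℝ) ^ γ + (((n : ℝ) + 1) ^ γ - (n : ℝ) ^ γ) * θ n) := by
  refine ⟨?_, ?_, fun γ hγ => cube_points hγ⟩
  · intro Ω _ P _ X h
    have hall : ∀ᵐ ω ∂P, ∀ K : Set ℕ, K.Infinite → (∀ k ∈ K, 1 ≤ k) → ∀ Q : ℕ → Polynomial ℝ,
        (∀ k ∈ K, Formula k (Q k)) ↔ ∀ k ∈ K, FormulaAt 1 (fun n => X n ω) k (Q k) := by
      filter_upwards [sq_all (upts h)] with ω hω K hK hK1 Q
      simp only [formula_iff, formulaAt_iff]
      exact hω K hK hK1 Q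
    refine ⟨hall, fun Q => ?_⟩
    have hQ : ∀ᵐ ω ∂P, (∀ k : ℕ, 1 ≤ k → Formula k (Q k)) ↔
        ∀ k : ℕ, 1 ≤ k → FormulaAt 1 (fun n => X n ω) k (Q k) := by
      filter_upwards [hall] with ω hω
      exact hω (Ici 1) (Ici_infinite 1) (fun k hk => hk) Q
    constructor
    · constructor
      · intro h1
        filter_upwards [hQ] with ω hω
        exact hω.1 h1
      · intro h1
        obtain ⟨ω, hω1, hω2⟩ := (h1.and hQ).exists
        exact hω2.2 hω1
    · constructor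
      · intro h1 h2
        obtain ⟨ω, hω1, hω2⟩ := (h2.and hQ).exists
        exact hω1 (hω2.1 h1)
      · intro h1
        by_contra h2
        apply h1
        filter_upwards [hQ] with ω hω h3
        exact h2 (hω.2 h3)
  · intro γ k hγ hk hc Ω _ P _ X h
    have hk1 : (1 : ℝ) ≤ k := by exact_mod_cast hk
    have hγ1 : γ ≤ 1 := by nlinarith
    have hc' : γ * (1 + (2 * (2 * (k : ℝ)) - 4) * (1 / 6)) ≤ 1 := by linarith
    filter_upwards [sqrt_err hγ hγ1 (spts h) (p := 2 * (k : ℝ)) (by linarith) (by norm_num) weyl_exp hc',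
      sq_each hγ hγ1 (spts h) (p := 2 * (k : ℝ)) (by linarith) (by norm_num) weyl_exp hc'] with ω h1 h2
    refine ⟨fun ε hε => ?_, fun Q => ?_⟩
    · obtain ⟨B, _, hB⟩ := h1 ε hε
      refine ⟨B, fun N hN => ?_⟩
      rw [S_eq, M_eq]
      exact hB N hN
    · rw [formula_iff, formulaAt_iff]
      exact h2 Q

end Pool.Agent.Results.MP_07318d_nt.RandomPointsSquareRoot
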