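import Mathlib
import Pool.Agent.Q85.Mom.Shift

set_option autoImplicit false

/-!
# The moments of zeta smoothed at the scale `1/log T`

Averaging `ζ(1/2+i(t+u)) e^{i(log T)u/2}` over `u` with a probability density of mean zero and
variance `v` changes the `L^β` norm by at most the share `(v/2) ((log T)/2 + C)²`, `β ≥ 1`.
-/

open Filter Topology Set MeasureTheory Complex

namespace Pool.Agent.Results.MP_07318d_nt.SmoothedZeta

/-- smoothed zeta function -/
noncomputable def S (T h : ℝ) (K : ℝ → ℝ) (t : ℝ) : ℂ :=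
  ∫ u in (-h)..h, (K u : ℂ) * (cexp (I * (Real.log T / 2) * u) * riemannZeta (1 / 2 + I * (t + u)))

open Pool.Agent.Q85.Mom

/-- Minkowski's inequality for integrals -/
lemma mink {p : ℝ} (hp : 1 ≤ p) {a b c d : ℝ} (hab : a ≤ b) (hcd : c ≤ d) {G : ℝ → ℝ → ℂ}
    (hG : Continuous fun q : ℝ × ℝ => G q.1 q.2) :
    nrm p a b (fun t => ∫ u in c..d, G t u) ≤ ∫ u in c..d, nrm p a b (fun t => G t u) := by
  have hp0 : 0 < p := by linarith
  have hFc : Continuous fun t => ∫ u in c..d, G t u :=
    intervalIntegral.continuous_parametric_intervalIntegral_of_continuous' hG c d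
  obtain ⟨w, w1, ⟨B, hB⟩, w3, w4⟩ := dual hp hab hFc
  have h2 : nrm p a b (fun t => ∫ u in c..d, G t u) =
      ‖((nrm p a b (fun t => ∫ u in c..d, G t u) : ℝ) : ℂ)‖ := by
    rw [Complex.norm_real, Real.norm_eq_abs, abs_of_nonneg (nrm_nonneg hab _)]
  rw [h2, ← w3]
  have e1 : ∫ t in a..b, w t * ∫ u in c..d, G t u = ∫ t in a..b, ∫ u in c..d, w t * G t u := by
    congr 1
    funext t
    rw [intervalIntegral.integral_const_mul]
  have e2 : ∫ t in a..b, (∫ u in c..d, w t * G t u) = ∫ u in c..d, (∫ t in a..b, w t * G t u) := by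
    apply intervalIntegral_intervalIntegral_swap
    obtain ⟨M, hM⟩ := (isCompact_Icc (a := (a, c)) (b := (b, d))).exists_bound_of_continuousOn
      hG.continuousOn
    have hsub : uIoc a b ×ˢ uIoc c d ⊆ Icc (a, c) (b, d) := by
      rintro ⟨x, y⟩ ⟨hx, hy⟩
      rw [uIoc_of_le hab] at hx
      rw [uIoc_of_le hcd] at hy
      exact ⟨⟨hx.1.le, hy.1.le⟩, ⟨hx.2, hy.2⟩⟩
    have hfin : volume (uIoc a b ×ˢ uIoc c d : Set (ℝ × ℝ)) < ⊤ :=
      lt_of_le_of_lt (measure_mono hsub) isCompact_Icc.measure_lt_top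
    have hbd : ∀ q ∈ uIoc a b ×ˢ uIoc c d, ‖Function.uncurry (fun t u => w t * G t u) q‖ ≤ B * M := by
      rintro ⟨x, y⟩ hq
      have hq2 := hsub hq
      simp only [Function.uncurry]
      rw [norm_mul]
      have hx : x ∈ Icc a b := ⟨hq2.1.1, hq2.2.1⟩
      exact mul_le_mul (hB x hx) (hM (x, y) hq2) (norm_nonneg _) ((norm_nonneg _).trans (hB x hx))
    have hmeas : AEStronglyMeasurable (Function.uncurry (fun t u => w t * G t u))
        (volume.restrict (uIoc a b ×ˢ uIoc c d)) := by
      apply AEStronglyMeasurable.mul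
      · exact (w1.comp measurable_fst).aestronglyMeasurable
      · exact hG.aestronglyMeasurable
    have : IsFiniteMeasure (volume.restrict (uIoc a b ×ˢ uIoc c d : Set (ℝ × ℝ))) :=
      ⟨by rw [Measure.restrict_apply_univ]; exact hfin⟩
    refine Integrable.of_bound hmeas (B * M) ?_
    filter_upwards [ae_restrict_mem (measurableSet_uIoc.prod measurableSet_uIoc)] with q hq
    exact hbd q hq
  rw [e1, e2]
  refine (intervalIntegral.norm_integral_le_integral_norm hcd).trans ?_
  have hc2 : Continuous fun u => nrm p a b (fun t => G t u) := by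
    unfold nrm
    apply Continuous.rpow_const _ fun u => Or.inr (by positivity)
    have h3 : Continuous (Function.uncurry fun u t : ℝ => ‖G t u‖ ^ p) := by
      have h4 : Continuous fun q : ℝ × ℝ => G q.2 q.1 := hG.comp (continuous_snd.prodMk continuous_fst)
      exact h4.norm.rpow_const fun _ => Or.inr hp0.le
    exact intervalIntegral.continuous_parametric_intervalIntegral_of_continuous' h3 a b
  have h5 : ∀ u, ‖∫ t in a..b, w t * G t u‖ ≤ nrm p a b (fun t => G t u) := fun u =>
    w4 _ (hG.comp (continuous_id.prodMk continuous_const))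
  rw [intervalIntegral.integral_of_le hcd, intervalIntegral.integral_of_le hcd]
  apply integral_mono_of_nonneg
  · exact Filter.Eventually.of_forall fun u => norm_nonneg _
  · have := hc2.intervalIntegrable (μ := volume) c d
    rwa [intervalIntegrable_iff_integrableOn_Ioc_of_le hcd] at this
  · exact Filter.Eventually.of_forall h5

/-- Taylor's formula -/
lemma taylor {f f1 f2 : ℝ → ℂ} (h1 : ∀ t, HasDerivAt f (f1 t) t) (h2 : ∀ t, HasDerivAt f1 (f2 t) t)
    (hc2 : Continuous f2) (t u : ℝ) :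
    f (t + u) - f t - u * f1 t = ∫ s in (0 : ℝ)..1, (u : ℂ) ^ 2 * (1 - s) * f2 (t + s * u) := by
  have hd : ∀ s : ℝ, HasDerivAt (fun s : ℝ => f (t + s * u) + (u : ℂ) * (1 - s) * f1 (t + s * u))
      ((u : ℂ) ^ 2 * (1 - s) * f2 (t + s * u)) s := by
    intro s
    have e : HasDerivAt (fun s : ℝ => t + s * u) u s := by
      have := ((hasDerivAt_id s).mul_const u).const_add t
      simpa using this
    have e1 : HasDerivAt (fun s : ℝ => f (t + s * u)) (u • f1 (t + s * u)) s :=
      HasDerivAt.scomp s (h1 (t + s * u)) e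
    have e2 : HasDerivAt (fun s : ℝ => f1 (t + s * u)) (u • f2 (t + s * u)) s :=
      HasDerivAt.scomp s (h2 (t + s * u)) e
    have e3 : HasDerivAt (fun s : ℝ => (u : ℂ) * (1 - (s : ℂ))) (-(u : ℂ)) s := by
      have h3 := ((Complex.ofRealCLM.hasDerivAt (x := s)).const_sub (1 : ℂ)).const_mul (u : ℂ)
      simpa using h3
    have h4 := e1.add (e3.mul e2)
    refine h4.congr_deriv ?_
    simp only [Complex.real_smul]
    ring
  have hci : Continuous fun s : ℝ => (u : ℂ) ^ 2 * (1 - s) * f2 (t + s * u) := by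
    have : Continuous fun s : ℝ => f2 (t + s * u) := hc2.comp (by fun_prop)
    exact (by fun_prop : Continuous fun s : ℝ => (u : ℂ) ^ 2 * (1 - (s : ℂ))).mul this
  rw [intervalIntegral.integral_eq_sub_of_hasDerivAt (fun s _ => hd s) (hci.intervalIntegrable _ _)]
  simp
  ring

lemma taylor_nrm {p : ℝ} (hp : 1 ≤ p) {f f1 f2 : ℝ → ℂ} (h1 : ∀ t, HasDerivAt f (f1 t) t)
    (h2 : ∀ t, HasDerivAt f1 (f2 t) t) (hc2 : Continuous f2) {a b u Q : ℝ} (hab : a ≤ b)
    (hu : |u| ≤ 1) (hQ : nrm p (a - 1) (b + 1) f2 ≤ Q) :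
    nrm p a b (fun t => f (t + u) - f t - u * f1 t) ≤ u ^ 2 / 2 * Q := by
  have hp0 : 0 < p := by linarith
  have huu := abs_le.1 hu
  have e : (fun t => f (t + u) - f t - u * f1 t) =
      fun t => ∫ s in (0 : ℝ)..1, (u : ℂ) ^ 2 * (1 - s) * f2 (t + s * u) := by
    funext t
    exact taylor h1 h2 hc2 t u
  rw [e]
  have hGc : Continuous fun q : ℝ × ℝ => (u : ℂ) ^ 2 * (1 - (q.2 : ℂ)) * f2 (q.1 + q.2 * u) := by
    have : Continuous fun q : ℝ × ℝ => f2 (q.1 + q.2 * u) := hc2.comp (by fun_prop)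
    exact (by fun_prop : Continuous fun q : ℝ × ℝ => (u : ℂ) ^ 2 * (1 - (q.2 : ℂ))).mul this
  refine (mink hp hab zero_le_one (G := fun t s => (u : ℂ) ^ 2 * (1 - (s : ℂ)) * f2 (t + s * u))
    hGc).trans ?_
  have h3 : ∀ s ∈ Icc (0 : ℝ) 1,
      nrm p a b (fun t => (u : ℂ) ^ 2 * (1 - (s : ℂ)) * f2 (t + s * u)) ≤ u ^ 2 * (1 - s) * Q := by
    intro s hs
    have hsu : |s * u| ≤ 1 := by
      rw [abs_mul, abs_of_nonneg hs.1]
      nlinarith [hs.2, abs_nonneg u]
    have hsu2 := abs_le.1 hsu
    have h4 : nrm p a b (fun t => (u : ℂ) ^ 2 * (1 - (s : ℂ)) * f2 (t + s * u)) ≤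
        (u ^ 2 * (1 - s)) * nrm p a b (fun t => f2 (t + s * u)) := by
      have hs1 : 0 ≤ 1 - s := by linarith [hs.2]
      refine nrm_mono hp0 hab ?_ (hc2.comp (by fun_prop)) (by positivity) fun t _ => ?_
      · exact continuous_const.mul (hc2.comp (by fun_prop))
      · have e5 : ((u : ℂ) ^ 2 * (1 - (s : ℂ))) = ((u ^ 2 * (1 - s) : ℝ) : ℂ) := by push_cast; ring
        simp only [e5]
        rw [norm_mul, Complex.norm_real, Real.norm_eq_abs, abs_of_nonneg (by positivity)]
        exact le_rfl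
    refine h4.trans (mul_le_mul_of_nonneg_left ?_ (mul_nonneg (sq_nonneg _) (by linarith [hs.2])))
    rw [nrm_shift]
    exact (nrm_interval hp0 (by linarith) (by linarith) (by linarith) hc2).trans hQ
  have h4 : ∫ s in (0 : ℝ)..1, nrm p a b (fun t => (u : ℂ) ^ 2 * (1 - (s : ℂ)) * f2 (t + s * u)) ≤
      ∫ s in (0 : ℝ)..1, u ^ 2 * (1 - s) * Q := by
    rw [intervalIntegral.integral_of_le zero_le_one, intervalIntegral.integral_of_le zero_le_one]
    apply integral_mono_of_nonneg
    · exact Filter.Eventually.of_forall fun s => nrm_nonneg hab _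
    · have h5 : Continuous fun s : ℝ => u ^ 2 * (1 - s) * Q := by fun_prop
      have := h5.intervalIntegrable (μ := volume) 0 1
      rwa [intervalIntegrable_iff_integrableOn_Ioc_of_le zero_le_one] at this
    · filter_upwards [ae_restrict_mem measurableSet_Ioc] with s hs
      exact h3 s ⟨hs.1.le, hs.2⟩
  refine h4.trans (le_of_eq ?_)
  have e9 : ∫ x in (0 : ℝ)..1, (1 - x) = 1 / 2 := by
    rw [intervalIntegral.integral_comp_sub_left (fun x : ℝ => x) (1 : ℝ), integral_id]
    norm_num
  rw [intervalIntegral.integral_mul_const, intervalIntegral.integral_const_mul, e9]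
  ring

theorem result : ∃ C T₀ : ℝ, 0 < C ∧ ∀ (β T a b h v : ℝ) (K : ℝ → ℝ), 1 ≤ β → T₀ ≤ T →
    T + 1 ≤ a → a + C ^ β ≤ b → b + 1 ≤ 8 * T → 0 ≤ h → h ≤ 1 → Continuous K → (∀ u, 0 ≤ K u) →
    ∫ u in (-h)..h, K u = 1 → ∫ u in (-h)..h, u * K u = 0 → ∫ u in (-h)..h, u ^ 2 * K u = v →
    |(∫ t in a..b, ‖S T h K t‖ ^ β) ^ (1 / β) -
        (∫ t in a..b, ‖riemannZeta (1 / 2 + I * t)‖ ^ β) ^ (1 / β)| ≤
      v / 2 * (Real.log T / 2 + C) ^ 2 *
        (∫ t in (a - 2 * Real.log T)..(b + 2 * Real.log T),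
          ‖riemannZeta (1 / 2 + I * t)‖ ^ β) ^ (1 / β) := by
  obtain ⟨C, T₀, hC, hT₀, hB⟩ := blk
  refine ⟨C, T₀, by linarith, ?_⟩
  intro β T a b h v K hβ hT ha hab hb hh hh1 hK hK0 hm0 hm1 hm2
  have hT3 : 3 ≤ T := hT₀.trans hT
  set ℓ : ℝ := Real.log T with hℓ
  have hℓ1 : 1 ≤ ℓ := by
    have h1 : Real.log (Real.exp 1) ≤ Real.log T := by
      apply Real.log_le_log (Real.exp_pos _)
      have := Real.exp_one_lt_d9
      linarith
    rwa [Real.log_exp] at h1
  have hβ0 : 0 < β := by linarith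
  have hCp : 0 < C ^ β := by positivity
  have hab' : a ≤ b := by linarith
  have hz : ∀ t : ℝ, riemannZeta (1 / 2 + I * t) = z t := by
    intro t
    unfold z
    rw [mul_comm]
  obtain ⟨hn1, -, -, h1⟩ := hB β T (a - 1) (b + 1) (ℓ / 2) hβ hT (by linarith)
    (by linarith) (by linarith) (by linarith) (by linarith)
  rw [show ℓ - ℓ / 2 = ℓ / 2 by ring, max_self] at h1
  set lam : ℝ := ℓ / 2 with hlam
  set q : ℝ := lam + C with hq
  have hq0 : 0 < q := by positivity
  set N := nrm β (a - 2 * ℓ) (b + 2 * ℓ) z with hN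
  have hmono : nrm β (a - 1 - ℓ) (b + 1 + ℓ) z ≤ N :=
    nrm_interval hβ0 (by linarith) (by linarith) (by linarith) z_cont
  have hff2 : nrm β (a - 1) (b + 1) (ff2 lam) ≤ q ^ 2 * N := by
    rw [nrm_ff2]
    exact h1.trans (mul_le_mul_of_nonneg_left hmono (by positivity))
  simp only [hz]
  have e1 : (∫ t in a..b, ‖z t‖ ^ β) ^ (1 / β) = nrm β a b (ff lam) := by
    rw [nrm_ff]
    rfl
  have e2 : (∫ t in (a - 2 * ℓ)..(b + 2 * ℓ), ‖z t‖ ^ β) ^ (1 / β) = N := rfl
  -- the smoothed function, twisted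
  set W : ℝ → ℂ := fun t => ∫ u in (-h)..h, (K u : ℂ) * ff lam (t + u) with hW
  have hWS : ∀ t, ‖S T h K t‖ = ‖W t‖ := by
    intro t
    have h2 : W t = cexp ((lam * t : ℝ) * I) * S T h K t := by
      rw [hW]
      unfold S
      simp only
      rw [← intervalIntegral.integral_const_mul]
      congr 1
      funext u
      have h3 : riemannZeta (1 / 2 + I * (t + u)) = z (t + u) := by
        have := hz (t + u)
        push_cast at this
        exact this
      rw [h3]
      unfold ff
      have h4 : cexp (((lam * (t + u) : ℝ) : ℂ) * I) = cexp ((lam * t : ℝ) * I) *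
          cexp (I * (Real.log T / 2) * u) := by
        rw [← Complex.exp_add]
        congr 1
        rw [hlam, hℓ]
        push_cast
        ring
      rw [h4]
      ring
    rw [h2, norm_mul, Complex.norm_exp_ofReal_mul_I, one_mul]
  simp only [hWS]
  have e3 : (∫ t in a..b, ‖W t‖ ^ β) ^ (1 / β) = nrm β a b W := rfl
  rw [e1, e2, e3]
  have hKuc : Continuous fun q : ℝ × ℝ => (K q.2 : ℂ) * ff lam (q.1 + q.2) := by
    have : Continuous fun q : ℝ × ℝ => ff lam (q.1 + q.2) :=
      (ff_cont lam).comp (continuous_fst.add continuous_snd)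
    exact (Complex.continuous_ofReal.comp (hK.comp continuous_snd)).mul this
  have hWc : Continuous W :=
    intervalIntegral.continuous_parametric_intervalIntegral_of_continuous'
      (f := fun t u => (K u : ℂ) * ff lam (t + u)) hKuc (-h) h
  -- the difference
  have hdiff : ∀ t, W t - ff lam t = ∫ u in (-h)..h,
      (K u : ℂ) * (ff lam (t + u) - ff lam t - u * ff1 lam t) := by
    intro t
    have c1 : Continuous fun u : ℝ => (K u : ℂ) * ff lam (t + u) :=
      (Complex.continuous_ofReal.comp hK).mul ((ff_cont lam).comp (by fun_prop))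
    have c2 : Continuous fun u : ℝ => (K u : ℂ) * ff lam t :=
      (Complex.continuous_ofReal.comp hK).mul continuous_const
    have c3 : Continuous fun u : ℝ => ((u * K u : ℝ) : ℂ) * ff1 lam t :=
      (Complex.continuous_ofReal.comp (continuous_id.mul hK)).mul continuous_const
    have h2 : ∀ u : ℝ, (K u : ℂ) * (ff lam (t + u) - ff lam t - u * ff1 lam t) =
        (K u : ℂ) * ff lam (t + u) - (K u : ℂ) * ff lam t - ((u * K u : ℝ) : ℂ) * ff1 lam t := by
      intro u
      push_cast
      ring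
    simp only [h2]
    have c4 : Continuous fun u : ℝ => (K u : ℂ) * ff lam (t + u) - (K u : ℂ) * ff lam t := c1.sub c2
    rw [intervalIntegral.integral_sub (c4.intervalIntegrable _ _)
      (c3.intervalIntegrable _ _), intervalIntegral.integral_sub (c1.intervalIntegrable _ _)
      (c2.intervalIntegrable _ _), intervalIntegral.integral_mul_const,
      intervalIntegral.integral_mul_const, intervalIntegral.integral_ofReal,
      intervalIntegral.integral_ofReal, hm0, hm1]
    simp [hW]
  have hRc : Continuous fun q : ℝ × ℝ => (K q.2 : ℂ) *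
      (ff lam (q.1 + q.2) - ff lam q.1 - q.2 * ff1 lam q.1) := by
    have g1 : Continuous fun q : ℝ × ℝ => ff lam (q.1 + q.2) :=
      (ff_cont lam).comp (continuous_fst.add continuous_snd)
    have g2 : Continuous fun q : ℝ × ℝ => ff lam q.1 := (ff_cont lam).comp continuous_fst
    have g3 : Continuous fun q : ℝ × ℝ => (q.2 : ℂ) * ff1 lam q.1 :=
      (Complex.continuous_ofReal.comp continuous_snd).mul ((ff1_cont lam).comp continuous_fst)
    exact (Complex.continuous_ofReal.comp (hK.comp continuous_snd)).mul ((g1.sub g2).sub g3)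
  have hD : nrm β a b (fun t => W t - ff lam t) ≤ v / 2 * (q ^ 2 * N) := by
    have e4 : (fun t => W t - ff lam t) = fun t => ∫ u in (-h)..h,
        (K u : ℂ) * (ff lam (t + u) - ff lam t - u * ff1 lam t) := funext hdiff
    rw [e4]
    refine (mink hβ hab' (by linarith) (G := fun t u => (K u : ℂ) *
      (ff lam (t + u) - ff lam t - u * ff1 lam t)) hRc).trans ?_
    have h3 : ∀ u ∈ Icc (-h) h, nrm β a b (fun t => (K u : ℂ) *
        (ff lam (t + u) - ff lam t - u * ff1 lam t)) ≤ (u ^ 2 * K u) * (q ^ 2 * N / 2) := by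
      intro u hu
      have hu1 : |u| ≤ 1 := (abs_le.2 ⟨hu.1, hu.2⟩).trans hh1
      have h4 := taylor_nrm hβ (ff_der lam) (ff1_der lam) (ff2_cont lam) hab' hu1 hff2
      have g5 : Continuous fun t => ff lam (t + u) - ff lam t - u * ff1 lam t :=
        (((ff_cont lam).comp (by fun_prop)).sub (ff_cont lam)).sub
          (continuous_const.mul (ff1_cont lam))
      have h5 : nrm β a b (fun t => (K u : ℂ) * (ff lam (t + u) - ff lam t - u * ff1 lam t)) ≤
          K u * nrm β a b (fun t => ff lam (t + u) - ff lam t - u * ff1 lam t) := by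
        refine nrm_mono hβ0 hab' (continuous_const.mul g5) g5 (hK0 u) fun t _ => ?_
        simp only [Pi.mul_apply]
        rw [norm_mul, Complex.norm_real, Real.norm_eq_abs, abs_of_nonneg (hK0 u)]
      refine h5.trans ((mul_le_mul_of_nonneg_left h4 (hK0 u)).trans (le_of_eq ?_))
      ring
    have h4 : ∫ u in (-h)..h, nrm β a b (fun t => (K u : ℂ) *
        (ff lam (t + u) - ff lam t - u * ff1 lam t)) ≤
        ∫ u in (-h)..h, (u ^ 2 * K u) * (q ^ 2 * N / 2) := by
      rw [intervalIntegral.integral_of_le (by linarith : -h ≤ h),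
        intervalIntegral.integral_of_le (by linarith : -h ≤ h)]
      apply integral_mono_of_nonneg
      · exact Filter.Eventually.of_forall fun s => nrm_nonneg hab' _
      · have h5 : Continuous fun u : ℝ => (u ^ 2 * K u) * (q ^ 2 * N / 2) :=
          ((continuous_pow 2).mul hK).mul continuous_const
        have := h5.intervalIntegrable (μ := volume) (-h) h
        rwa [intervalIntegrable_iff_integrableOn_Ioc_of_le (by linarith : -h ≤ h)] at this
      · filter_upwards [ae_restrict_mem measurableSet_Ioc] with s hs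
        exact h3 s ⟨hs.1.le, hs.2⟩
    refine h4.trans (le_of_eq ?_)
    rw [intervalIntegral.integral_mul_const, hm2]
    ring
  -- both directions
  have hd1 : nrm β a b W ≤ nrm β a b (ff lam) + nrm β a b (fun t => W t - ff lam t) := by
    have h2 := nrm_add hβ hab' (ff_cont lam) (hWc.sub (ff_cont lam))
    refine le_trans (le_of_eq ?_) h2
    congr 1
    funext t
    simp
  have hd2 : nrm β a b (ff lam) ≤ nrm β a b W + nrm β a b (fun t => W t - ff lam t) := by
    have h2 := nrm_add hβ hab' hWc ((ff_cont lam).sub hWc)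
    have h3 : nrm β a b (fun t => (ff lam - W) t) = nrm β a b (fun t => W t - ff lam t) := by
      apply nrm_congr hab'
      intro t _
      rw [Pi.sub_apply, norm_sub_rev]
    have h4 : nrm β a b (ff lam) ≤ nrm β a b W + nrm β a b (fun t => (ff lam - W) t) := by
      refine le_trans (le_of_eq ?_) h2
      congr 1
      funext t
      simp
    rwa [h3] at h4
  have e5 : v / 2 * (q ^ 2 * N) = v / 2 * q ^ 2 * N := by ring
  rw [e5] at hD
  rw [abs_le]
  constructor <;> linarith

end Pool.Agent.Results.MP_07318d_nt.SmoothedZeta
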